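import Pool.Agent.Helper27.BG.St2

/-!
# Project BG, module ONE: one-dimensional discrepancy
-/

set_option autoImplicit false

noncomputable section

namespace Pool.Agent.Helper27.BG

open Finset MeasureTheory
open Pool.Agent.Helper90.MT (DD piDD SW)

private theorem pos_ONE {W M d : ℕ} (hd : d ∈ DD (pw W M)) : 1 ≤ d := by
  unfold DD at hd
  obtain ⟨s, _, rfl⟩ := mem_image.1 hd
  apply Nat.one_le_iff_ne_zero.2
  rw [Finset.prod_ne_zero_iff]
  intro i _
  have h := (mem_filter.1 i.2).2.1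
  exact h.ne_zero

open Classical in
/-- at most one element has a given normalised size -/
private theorem single_ONE (D : Finset ℕ) (u : ℕ → ℝ) (hD : ∀ d ∈ D, 1 ≤ d)
    (hinj : Set.InjOn u (D : Set ℕ)) (a : ℝ) :
    ∑ d ∈ D, (if u d = a then 1 / (d : ℝ) else 0) ≤ 1 := by
  by_cases h : ∃ d ∈ D, u d = a
  · obtain ⟨d, hd, hda⟩ := h
    rw [Finset.sum_eq_single_of_mem d hd]
    · rw [if_pos hda]
      have : (1 : ℝ) ≤ d := by exact_mod_cast hD d hd
      rw [div_le_one (by linarith)]
      exact this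
    · intro e he hed
      rw [if_neg]
      intro hea
      exact hed (hinj he hd (hea.trans hda.symm))
  · push Not at h
    rw [Finset.sum_eq_zero]
    · norm_num
    · intro d hd
      rw [if_neg (h d hd)]

open Classical in
private theorem abs_ONE (D : Finset ℕ) (u : ℕ → ℝ) (hD : ∀ d ∈ D, 1 ≤ d)
    (hinj : Set.InjOn u (D : Set ℕ)) (E : Set ℝ) (a b : ℝ) (hab : a ≤ b)
    (h1 : E ⊆ Set.Icc a b) (h2 : Set.Ioo a b ⊆ E) :
    |∑ d ∈ D, (if u d ∈ E then 1 / (d : ℝ) else 0) -
      (∑ d ∈ D, (if u d ≤ b then 1 / (d : ℝ) else 0) -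
        ∑ d ∈ D, (if u d ≤ a then 1 / (d : ℝ) else 0))| ≤ 1 := by
  have hA := single_ONE D u hD hinj a
  have hB := single_ONE D u hD hinj b
  have hup : ∑ d ∈ D, (if u d ∈ E then 1 / (d : ℝ) else 0) ≤
      ∑ d ∈ D, (if u d ≤ b then 1 / (d : ℝ) else 0) -
        ∑ d ∈ D, (if u d ≤ a then 1 / (d : ℝ) else 0) +
        ∑ d ∈ D, (if u d = a then 1 / (d : ℝ) else 0) := by
    rw [← Finset.sum_sub_distrib, ← Finset.sum_add_distrib]
    refine Finset.sum_le_sum fun d _ => ?_
    have hd0 : (0 : ℝ) ≤ 1 / (d : ℝ) := by positivity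
    by_cases hE : u d ∈ E
    · obtain ⟨h3, h4⟩ := h1 hE
      rw [if_pos hE, if_pos h4]
      rcases h3.eq_or_lt with h5 | h5
      · rw [if_pos h5.ge, if_pos h5.symm]
        linarith
      · rw [if_neg (not_le.2 h5), if_neg h5.ne']
        linarith
    · rw [if_neg hE]
      by_cases h3 : u d ≤ a
      · rw [if_pos h3, if_pos (h3.trans hab)]
        split_ifs <;> linarith
      · rw [if_neg h3]
        split_ifs <;> linarith
  have hlo : ∑ d ∈ D, (if u d ≤ b then 1 / (d : ℝ) else 0) -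
        ∑ d ∈ D, (if u d ≤ a then 1 / (d : ℝ) else 0) -
        ∑ d ∈ D, (if u d = b then 1 / (d : ℝ) else 0) ≤
      ∑ d ∈ D, (if u d ∈ E then 1 / (d : ℝ) else 0) := by
    rw [← Finset.sum_sub_distrib, ← Finset.sum_sub_distrib]
    refine Finset.sum_le_sum fun d _ => ?_
    have hd0 : (0 : ℝ) ≤ 1 / (d : ℝ) := by positivity
    rcases le_or_gt (u d) a with h3 | h3
    · rw [if_pos h3, if_pos (h3.trans hab)]
      split_ifs <;> linarith
    · rw [if_neg (not_le.2 h3)]
      rcases lt_trichotomy (u d) b with h4 | h4 | h4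
      · rw [if_pos h4.le, if_neg h4.ne, if_pos (h2 ⟨h3, h4⟩)]
        linarith
      · rw [if_pos h4.le, if_pos h4]
        split_ifs <;> linarith
      · rw [if_neg (not_le.2 h4), if_neg h4.ne']
        split_ifs <;> linarith
  rw [abs_le]
  constructor <;> linarith

private theorem vol_ONE (E : Set ℝ) (a b : ℝ) (hab : a ≤ b)
    (h1 : E ⊆ Set.Icc a b) (h2 : Set.Ioo a b ⊆ E) : (volume E).toReal = b - a := by
  have h3 : volume E ≤ ENNReal.ofReal (b - a) := by
    rw [← Real.volume_Icc]
    exact measure_mono h1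
  have h4 : ENNReal.ofReal (b - a) ≤ volume E := by
    rw [← Real.volume_Ioo]
    exact measure_mono h2
  rw [le_antisymm h3 h4, ENNReal.toReal_ofReal (by linarith)]

theorem hOne : StOne := by
  classical
  intro hSW hDD w hw W hDv
  obtain ⟨c, C, hc0, hcup, hclo, hC⟩ := hSW W hDv.1
  have hclo' := hclo w hw hDv
  have hw0 : (0 : ℝ) < w := by exact_mod_cast hw
  have hW0 : (0 : ℝ) < W := by exact_mod_cast hDv.1
  have hφ0 : (0 : ℝ) < (W.totient : ℝ) / W := by
    have : (0 : ℝ) < W.totient := by exact_mod_cast Nat.totient_pos.2 hDv.1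
    positivity
  -- large M
  have hlim : ∀ᶠ x : ℝ in Filter.atTop,
      (max 1 ((1 + 2 * C) * w / ((W.totient : ℝ) / W) / (2499 / 10000))) ≤ Real.log x :=
    Real.tendsto_log_atTop.eventually_ge_atTop _
  obtain ⟨X, hX⟩ := Filter.eventually_atTop.1 hlim
  obtain ⟨M₁, hM₁⟩ := exists_nat_ge X
  refine ⟨max M₁ 1, fun M hM E hE hE2 => ?_⟩
  have hM0 : 1 ≤ M := (le_max_right _ _).trans hM
  have hMr : (0 : ℝ) < M := by exact_mod_cast hM0
  have hlM := hX M (hM₁.trans (by exact_mod_cast (le_max_left _ _).trans hM))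
  have hlM1 : 1 ≤ Real.log M := (le_max_left _ _).trans hlM
  have hlM2 := (le_max_right _ _).trans hlM
  have hL : Real.log (RR M) = 2499 / 10000 * Real.log M := by
    unfold RR
    rw [Real.log_rpow hMr]
  set L : ℝ := Real.log (RR M) with hLdef
  have hL0 : 0 < L := by rw [hL]; positivity
  have hSS : SS W M = (W.totient : ℝ) / W * L := rfl
  have hSS0 : 0 < SS W M := by rw [hSS]; positivity
  have hbig : 1 + 2 * C ≤ SS W M / w := by
    rw [hSS, le_div_iff₀ hw0, hL]
    rw [div_div, div_le_iff₀ (by positivity)] at hlM2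
    linarith
  set D := DD (pw W M) with hD
  have hDpos : ∀ d ∈ D, 1 ≤ d := fun d hd => pos_ONE hd
  have hud : ∀ d : ℕ, ud M d = Real.log d / L := fun d => rfl
  have hinj : Set.InjOn (ud M) (D : Set ℕ) := by
    intro d hd e he hde
    have hd1 : (0 : ℝ) < d := by exact_mod_cast hDpos d hd
    have he1 : (0 : ℝ) < e := by exact_mod_cast hDpos e he
    rw [hud, hud, div_left_inj' hL0.ne'] at hde
    have := Real.log_injOn_pos (Set.mem_Ioi.2 hd1) (Set.mem_Ioi.2 he1) hde
    exact_mod_cast this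
  have hG : ∀ b : ℝ, 0 ≤ b → b ≤ 2 →
      |∑ d ∈ D, (if ud M d ≤ b then 1 / (d : ℝ) else 0) - c * (b * L)| ≤ C := by
    intro b hb0 hb2
    have hz1 : 1 ≤ Real.exp (b * L) := Real.one_le_exp (by positivity)
    have hz2 : Real.exp (b * L) ≤ (M : ℝ) ^ (2499 / 5000 : ℝ) := by
      rw [Real.rpow_def_of_pos hMr]
      apply Real.exp_le_exp.2
      rw [hL]
      nlinarith
    have h1 := hDD W M (Real.exp (b * L)) hDv.1 hz1 hz2
    have h2 := hC (Real.exp (b * L)) hz1
    rw [Real.log_exp, ← h1, Finset.sum_filter] at h2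
    have h3 : ∑ d ∈ D, (if ud M d ≤ b then 1 / (d : ℝ) else 0) =
        ∑ d ∈ D, (if (d : ℝ) ≤ Real.exp (b * L) then 1 / (d : ℝ) else 0) := by
      refine Finset.sum_congr rfl fun d hd => ?_
      have hd1 : (0 : ℝ) < d := by exact_mod_cast hDpos d hd
      have h4 : ud M d ≤ b ↔ (d : ℝ) ≤ Real.exp (b * L) := by
        rw [hud, div_le_iff₀ hL0, ← Real.log_le_iff_le_exp hd1]
      simp only [h4]
    rw [h3]
    exact h2
  rcases Set.eq_empty_or_nonempty E with h0 | hne
  · subst h0
    simp only [Set.mem_empty_iff_false, if_false, Finset.sum_const_zero, measure_empty,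
      ENNReal.toReal_zero, mul_zero, sub_zero, abs_zero]
    positivity
  · have hbb : BddBelow E := ⟨0, fun x hx => (hE2 hx).1⟩
    have hba : BddAbove E := ⟨2, fun x hx => (hE2 hx).2.le⟩
    obtain ⟨e, he⟩ := hne
    have hne : E.Nonempty := ⟨e, he⟩
    set a := sInf E with ha
    set b := sSup E with hb
    have ha0 : 0 ≤ a := le_csInf hne fun x hx => (hE2 hx).1
    have hb2 : b ≤ 2 := csSup_le hne fun x hx => (hE2 hx).2.le
    have hab : a ≤ b := (csInf_le hbb he).trans (le_csSup hba he)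
    have h1 : E ⊆ Set.Icc a b := fun x hx => ⟨csInf_le hbb hx, le_csSup hba hx⟩
    have h2 : Set.Ioo a b ⊆ E := by
      intro x hx
      obtain ⟨y, hy, hyx⟩ := exists_lt_of_csInf_lt hne hx.1
      obtain ⟨z, hz, hxz⟩ := exists_lt_of_lt_csSup hne hx.2
      exact hE.out hy hz ⟨hyx.le, hxz.le⟩
    have h3 := abs_ONE D (ud M) hDpos hinj E a b hab h1 h2
    have h4 := hG a ha0 (hab.trans hb2)
    have h5 := hG b (ha0.trans hab) hb2
    rw [vol_ONE E a b hab h1 h2]
    have h6 : |c * ((b - a) * L) - SS W M * (b - a)| ≤ 4 / w * SS W M := by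
      have e1 : c * ((b - a) * L) - SS W M * (b - a) =
          -(((W.totient : ℝ) / W - c) * L * (b - a)) := by
        rw [hSS]
        ring
      have h7 : 0 ≤ (W.totient : ℝ) / W - c := by linarith
      have h8 : (W.totient : ℝ) / W - c ≤ 2 / w * ((W.totient : ℝ) / W) := by
        have : (1 - 2 / (w : ℝ)) * ((W.totient : ℝ) / W) =
          (W.totient : ℝ) / W - 2 / w * ((W.totient : ℝ) / W) := by ring
        linarith
      have h9 : 0 ≤ ((W.totient : ℝ) / W - c) * L * (b - a) := by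
        have : 0 ≤ b - a := by linarith
        positivity
      rw [e1, abs_neg, abs_of_nonneg h9]
      have h10 : b - a ≤ 2 := by linarith
      calc ((W.totient : ℝ) / W - c) * L * (b - a)
          ≤ (2 / w * ((W.totient : ℝ) / W)) * L * 2 := by
            apply mul_le_mul _ h10 (by linarith) (by positivity)
            exact mul_le_mul_of_nonneg_right h8 hL0.le
        _ = 4 / w * SS W M := by rw [hSS]; ring
    have h11 : 5 / w * SS W M = 4 / w * SS W M + SS W M / w := by ring
    rw [h11]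
    rw [abs_le] at h3 h4 h5 h6 ⊢
    constructor
    · have e2 : c * ((b - a) * L) = c * (b * L) - c * (a * L) := by ring
      rw [e2] at h6
      linarith [h3.1, h4.2, h5.1, h6.1]
    · have e2 : c * ((b - a) * L) = c * (b * L) - c * (a * L) := by ring
      rw [e2] at h6
      linarith [h3.2, h4.1, h5.2, h6.2]

end Pool.Agent.Helper27.BG
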